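import Pool.Agent.Helper50.BSC.PadLib

/-!
# EFIN
-/

set_option autoImplicit false

namespace Pool.Agent.Helper14.BSC

open Polynomial

variable {p : ℕ} [hp : Fact p.Prime]

theorem efin_pow_one {w : ℂ_[p]} (hw : ‖w‖ = 1) (h : ‖w - 1‖ < 1) (n : ℕ) : ‖w ^ n - 1‖ < 1 := by
  induction n with
  | zero => simp
  | succ n ih =>
    have e : w ^ (n + 1) - 1 = w ^ n * (w - 1) + (w ^ n - 1) := by ring
    rw [e]
    refine lt_of_le_of_lt (IsUltrametricDist.norm_add_le_max _ _) (max_lt ?_ ih)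
    rw [norm_mul, norm_pow, hw, one_pow, one_mul]
    exact h

theorem efin_cover (E : IntermediateField ℚ_[p] ℂ_[p]) (hE : FiniteDimensional ℚ_[p] E) :
    ∃ r : ℕ, ∃ f : Fin r → ℂ_[p], ∀ w ∈ E, ‖w‖ ≤ 1 → ∃ i, ‖w - f i‖ < 1 := by
  have hE' : FiniteDimensional ℚ_[p] E.toSubmodule := hE
  have hP : ProperSpace E.toSubmodule := FiniteDimensional.proper ℚ_[p] E.toSubmodule
  have hK : IsCompact (Metric.closedBall (0 : E.toSubmodule) 1) := isCompact_closedBall _ _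
  obtain ⟨t, ht1, ht2⟩ := hK.elim_finite_subcover_image (b := Set.univ) (c := fun x : E.toSubmodule => Metric.ball x 1)
    (fun x _ => Metric.isOpen_ball) (fun x _ => Set.mem_iUnion₂.2 ⟨x, trivial, Metric.mem_ball_self one_pos⟩)
  obtain ⟨ht3, ht4⟩ := ht2
  obtain ⟨n, f, hf⟩ : ∃ (n : ℕ) (f : Fin n → E.toSubmodule), ∀ x ∈ t, ∃ i, f i = x := by
    have := ht3.fintype
    refine ⟨Fintype.card t, fun i => (((Fintype.equivFin t).symm i : t) : E.toSubmodule), fun x hx => ?_⟩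
    exact ⟨Fintype.equivFin t ⟨x, hx⟩, by simp⟩
  refine ⟨n, fun i => (f i : ℂ_[p]), fun w hw hw1 => ?_⟩
  have h1 : (⟨w, hw⟩ : E.toSubmodule) ∈ Metric.closedBall (0 : E.toSubmodule) 1 := by
    rw [mem_closedBall_zero_iff]
    exact hw1
  obtain ⟨x, hx, hxw⟩ := Set.mem_iUnion₂.1 (ht4 h1)
  obtain ⟨i, hi⟩ := hf x hx
  refine ⟨i, ?_⟩
  rw [← hi, Metric.mem_ball, dist_eq_norm] at hxw
  exact hxw

theorem st_EFIN : ST_EFIN := by
  intro p hp E hE
  obtain ⟨r, f, hf⟩ := efin_cover E hE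
  refine ⟨(Module.finrank ℚ_[p] E).factorial, r.factorial, Nat.factorial_pos _, Nat.factorial_pos _, ?_⟩
  intro w hw hw0
  constructor
  · have hx : IsAlgebraic ℚ_[p] w := by
      have := IsAlgebraic.of_finite ℚ_[p] (⟨w, hw⟩ : E)
      exact this.algebraMap (A := ℂ_[p])
    have hd : (minpoly ℚ_[p] w).natDegree ≤ Module.finrank ℚ_[p] E := by
      have h1 : minpoly ℚ_[p] (algebraMap E ℂ_[p] ⟨w, hw⟩) = minpoly ℚ_[p] (⟨w, hw⟩ : E) :=
        minpoly.algebraMap_eq (algebraMap E ℂ_[p]).injective _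
      have h2 : minpoly ℚ_[p] w = minpoly ℚ_[p] (⟨w, hw⟩ : E) := h1
      rw [h2]
      exact minpoly.natDegree_le _
    have hpos : 0 < (minpoly ℚ_[p] w).natDegree := minpoly.natDegree_pos hx.isIntegral
    obtain ⟨t, ht⟩ := Nat.dvd_factorial hpos hd
    have hc : (minpoly ℚ_[p] w).coeff 0 ≠ 0 := minpoly.coeff_zero_ne_zero hx.isIntegral hw0
    obtain ⟨j, hj⟩ := Padic.padicNormE.image hc
    refine ⟨-j * t, ?_⟩
    rw [ht, pow_mul, pl_norm w hx, hj]
    push_cast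
    rw [zpow_mul, zpow_natCast]
  · intro hw1
    have h1 : ∀ i : ℕ, w ^ i ∈ E ∧ ‖w ^ i‖ ≤ 1 := fun i => ⟨pow_mem hw i, by rw [norm_pow, hw1, one_pow]⟩
    choose g hg using fun i : Fin (r + 1) => hf (w ^ (i : ℕ)) (h1 i).1 (h1 i).2
    obtain ⟨a, b, hab, hgab⟩ := Fintype.exists_ne_map_eq_of_card_lt g (by simp)
    have key : ∀ a b : Fin (r + 1), (a : ℕ) < b → g a = g b → ‖w ^ r.factorial - 1‖ < 1 := by
      intro a b hlt hg2
      have h2 : ‖w ^ (a : ℕ) - w ^ (b : ℕ)‖ < 1 := by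
        have e : w ^ (a : ℕ) - w ^ (b : ℕ) = (w ^ (a : ℕ) - f (g a)) + -(w ^ (b : ℕ) - f (g b)) := by
          rw [hg2]
          ring
        rw [e]
        refine lt_of_le_of_lt (IsUltrametricDist.norm_add_le_max _ _) (max_lt (hg a) ?_)
        rw [norm_neg]
        exact hg b
      have h3 : ‖w ^ ((b : ℕ) - a) - 1‖ < 1 := by
        have e : w ^ (a : ℕ) - w ^ (b : ℕ) = -(w ^ (a : ℕ) * (w ^ ((b : ℕ) - a) - 1)) := by
          have : (b : ℕ) = a + (b - a) := by omega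
          conv_lhs => rw [this, pow_add]
          ring
        rw [e, norm_neg, norm_mul, norm_pow, hw1, one_pow, one_mul] at h2
        exact h2
      have h4 : ((b : ℕ) - a) ∣ r.factorial := Nat.dvd_factorial (by omega) (by have := b.2; omega)
      obtain ⟨t, ht⟩ := h4
      rw [ht, pow_mul]
      apply efin_pow_one _ h3
      rw [norm_pow, hw1, one_pow]
    rcases lt_or_gt_of_ne (fun h => hab (Fin.ext h) : (a : ℕ) ≠ b) with h | h
    · exact key a b h hgab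
    · exact key b a h hgab.symm

end Pool.Agent.Helper14.BSC
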