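import Pool.Agent.Helper50.BSC.NRM
import Pool.Agent.Helper50.BSC.EFIN

/-!
# LOC: existence of the local data
-/

set_option autoImplicit false

namespace Pool.Agent.Helper14.BSC

open Polynomial

variable {p : ℕ} [hp : Fact p.Prime]

theorem loc_roots (L : Type) [Field L] [IsAlgClosed L] [CharZero L] (n : ℕ) (hn : 0 < n) :
    ∃ z : L, IsPrimitiveRoot z n := by
  have : NeZero (n : L) := ⟨by exact_mod_cast hn.ne'⟩
  exact HasEnoughRootsOfUnity.exists_primitiveRoot L n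

theorem loc_E (E₀ : IntermediateField ℚ_[p] ℂ_[p]) (hE₀ : FiniteDimensional ℚ_[p] E₀) (m : ℕ) (hm : 0 < m)
    (z : ℂ_[p]) (hz : z ^ m = 1) : ∃ E : IntermediateField ℚ_[p] ℂ_[p], FiniteDimensional ℚ_[p] E ∧
      E₀ ≤ E ∧ z ∈ E ∧ ∀ w ∈ E, ∃ Q : Polynomial E₀, Q ≠ 0 ∧ Q.natDegree ≤ m ∧ aeval w Q = 0 := by
  have hQ : aeval z (X ^ m - 1 : Polynomial E₀) = 0 := by simp [hz]
  have hQ0 : (X ^ m - 1 : Polynomial E₀) ≠ 0 := (monic_X_pow_sub_C (1 : E₀) hm.ne').ne_zero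
  have hQd : (X ^ m - 1 : Polynomial E₀).natDegree = m := natDegree_X_pow_sub_C
  have halg : IsAlgebraic E₀ z := ⟨_, hQ0, hQ⟩
  have hint : IsIntegral E₀ z := halg.isIntegral
  have hfin : FiniteDimensional E₀ (IntermediateField.adjoin E₀ {z}) :=
    IntermediateField.adjoin.finiteDimensional hint
  have hfin2 : FiniteDimensional ℚ_[p] (IntermediateField.adjoin E₀ {z}) :=
    FiniteDimensional.trans ℚ_[p] E₀ _
  refine ⟨(IntermediateField.adjoin E₀ {z}).restrictScalars ℚ_[p], hfin2, ?_, ?_, ?_⟩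
  · intro x hx
    exact (IntermediateField.adjoin E₀ {z}).algebraMap_mem ⟨x, hx⟩
  · exact IntermediateField.mem_adjoin_simple_self E₀ z
  · intro w hw
    have hw' : w ∈ IntermediateField.adjoin E₀ {z} := hw
    have h1 : minpoly E₀ (algebraMap (IntermediateField.adjoin E₀ {z}) ℂ_[p] ⟨w, hw'⟩) =
        minpoly E₀ (⟨w, hw'⟩ : IntermediateField.adjoin E₀ {z}) :=
      minpoly.algebraMap_eq (algebraMap (IntermediateField.adjoin E₀ {z}) ℂ_[p]).injective _
    have h2 : minpoly E₀ w = minpoly E₀ (⟨w, hw'⟩ : IntermediateField.adjoin E₀ {z}) := h1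
    have h3 : IsIntegral E₀ (⟨w, hw'⟩ : IntermediateField.adjoin E₀ {z}) := Algebra.IsIntegral.isIntegral _
    refine ⟨minpoly E₀ w, ?_, ?_, minpoly.aeval _ _⟩
    · rw [h2]
      exact minpoly.ne_zero h3
    · rw [h2]
      refine (minpoly.natDegree_le _).trans ?_
      rw [IntermediateField.adjoin.finrank hint]
      exact (natDegree_le_of_dvd (minpoly.dvd E₀ z hQ) hQ0).trans hQd.le

section

variable {k Ω : Type} [Field k] [Field Ω] [Algebra k Ω]

theorem loc_iso [CharZero k] [IsAlgClosed Ω] (ι : Acl k Ω →+* ℂ_[p]) (E : IntermediateField ℚ_[p] ℂ_[p])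
    (hE : FiniteDimensional ℚ_[p] E) (hk : ∀ c : k, ι (algebraMap k (Acl k Ω) c) ∈ E) (g : GG k Ω)
    (hg : ∀ x, ι x ∈ E → g x = x) (x : Acl k Ω) : ‖ι (g x)‖ = ‖ι x‖ := by
  have hA : IsAlgClosed (Acl k Ω) := IsAlgClosure.isAlgClosed k
  have hxk : IsIntegral k x := Algebra.IsIntegral.isIntegral x
  let f : k →+* E := (ι.comp (algebraMap k (Acl k Ω))).codRestrict E.toSubfield hk
  have hf : (algebraMap E ℂ_[p]).comp f = ι.comp (algebraMap k (Acl k Ω)) := by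
    ext c
    rfl
  have hmap : ((minpoly k x).map f).map (algebraMap E ℂ_[p]) = ((minpoly k x).map (algebraMap k (Acl k Ω))).map ι := by
    rw [Polynomial.map_map, Polynomial.map_map, hf]
  have hP0 : (minpoly k x).map f ≠ 0 := ((minpoly.monic hxk).map f).ne_zero
  have hPx : aeval (ι x) ((minpoly k x).map f) = 0 := by
    rw [← eval_map_algebraMap, hmap, eval_map_apply, eval_map_algebraMap, minpoly.aeval, map_zero]
  have halg : IsAlgebraic E (ι x) := ⟨_, hP0, hPx⟩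
  have hQp : IsAlgebraic ℚ_[p] (ι x) := pl_alg E hE halg
  -- the minimal polynomial over `E` lifts to `Acl`
  have hdvd : minpoly E (ι x) ∣ (minpoly k x).map f := minpoly.dvd E _ hPx
  have hRm : (minpoly E (ι x)).Monic := minpoly.monic halg.isIntegral
  have hRs : ((minpoly E (ι x)).map (algebraMap E ℂ_[p])).Splits := IsAlgClosed.splits _
  have hroots : ∀ a ∈ ((minpoly E (ι x)).map (algebraMap E ℂ_[p])).roots, ∃ r : Acl k Ω, ι r = a := by
    intro a ha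
    have h1 := (mem_roots'.1 ha).2
    obtain ⟨Q, hQ⟩ := hdvd
    have h2 : IsRoot (((minpoly k x).map (algebraMap k (Acl k Ω))).map ι) a := by
      rw [← hmap, hQ, Polynomial.map_mul]
      exact h1.dvd (dvd_mul_right _ _)
    have hs : ((minpoly k x).map (algebraMap k (Acl k Ω))).Splits := IsAlgClosed.splits _
    have h3 : a ∈ (((minpoly k x).map (algebraMap k (Acl k Ω))).map ι).roots := by
      rw [mem_roots]
      · exact h2
      · exact (((minpoly.monic hxk).map _).map _).ne_zero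
    rw [hs.roots_map, Multiset.mem_map] at h3
    obtain ⟨r, -, hr⟩ := h3
    exact ⟨r, hr⟩
  have hlift : (minpoly E (ι x)).map (algebraMap E ℂ_[p]) ∈ Polynomial.lifts ι := by
    rw [hRs.eq_prod_roots_of_monic (hRm.map _)]
    apply Subsemiring.multiset_prod_mem
    intro q hq
    obtain ⟨a, ha, rfl⟩ := Multiset.mem_map.1 hq
    obtain ⟨r, hr⟩ := hroots a ha
    rw [mem_lifts]
    refine ⟨X - C r, ?_⟩
    rw [Polynomial.map_sub, map_X, map_C, hr]
  obtain ⟨R, hR⟩ := (mem_lifts _).1 hlift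
  have hRg : R.map (g : Acl k Ω →+* Acl k Ω) = R := by
    ext i
    rw [coeff_map]
    congr 1
    apply hg
    have : ι (R.coeff i) = (R.map ι).coeff i := (coeff_map _ _).symm
    rw [this, hR, coeff_map]
    exact ((minpoly E (ι x)).coeff i).2
  have hRx : R.eval x = 0 := by
    apply ι.injective
    rw [map_zero, ← eval_map_apply, hR, eval_map_algebraMap, minpoly.aeval]
  have hRgx : R.eval (g x) = 0 := by
    have h1 : (R.map (g : Acl k Ω →+* Acl k Ω)).eval ((g : Acl k Ω →+* Acl k Ω) x) =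
      (g : Acl k Ω →+* Acl k Ω) (R.eval x) := eval_map_apply _ _
    rw [hRg, hRx, map_zero] at h1
    exact h1
  apply pl_conj E hQp
  rw [← eval_map_algebraMap, ← hR, eval_map_apply, hRgx, map_zero]

theorem loc_pi (A : Type) [Field A] (ι : A →+* ℂ_[p]) (E : IntermediateField ℚ_[p] ℂ_[p])
    (hE : FiniteDimensional ℚ_[p] E) : ∃ π : A, ι π ∈ E ∧ 0 < ‖ι π‖ ∧ ‖ι π‖ < 1 ∧
      ∀ x, ι x ∈ E → x ≠ 0 → ∃ j : ℤ, ‖ι x‖ = ‖ι π‖ ^ j := by
  obtain ⟨e, N, he, -, hv⟩ := st_EFIN p E hE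
  have hp1 : (1 : ℝ) < p := by exact_mod_cast hp.out.one_lt
  let H : AddSubgroup ℤ :=
    { carrier := {j | ∃ x : A, ι x ∈ E ∧ x ≠ 0 ∧ ‖ι x‖ ^ e = (p : ℝ) ^ j}
      add_mem' := by
        rintro a b ⟨x, hx, hx0, hxa⟩ ⟨y, hy, hy0, hyb⟩
        refine ⟨x * y, ?_, mul_ne_zero hx0 hy0, ?_⟩
        · rw [map_mul]; exact mul_mem hx hy
        · rw [map_mul, norm_mul, mul_pow, hxa, hyb, zpow_add₀ (by linarith)]
      zero_mem' := ⟨1, by rw [map_one]; exact one_mem _, one_ne_zero, by simp⟩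
      neg_mem' := by
        rintro a ⟨x, hx, hx0, hxa⟩
        refine ⟨x⁻¹, ?_, inv_ne_zero hx0, ?_⟩
        · rw [map_inv₀]; exact inv_mem hx
        · rw [map_inv₀, norm_inv, inv_pow, hxa, zpow_neg] }
  obtain ⟨a, ha⟩ := Int.subgroup_cyclic H
  have hmem : ∀ j, j ∈ H ↔ ∃ t : ℤ, j = t * a := by
    intro j
    rw [ha, ← AddSubgroup.zmultiples_eq_closure, AddSubgroup.mem_zmultiples_iff]
    constructor
    · rintro ⟨t, ht⟩
      exact ⟨t, by rw [← ht, smul_eq_mul]⟩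
    · rintro ⟨t, ht⟩
      exact ⟨t, by rw [ht, smul_eq_mul]⟩
  have hpm : (-(e : ℤ)) ∈ H := by
    refine ⟨(p : A), ?_, ?_, ?_⟩
    · rw [map_natCast]; exact natCast_mem _ _
    · intro h
      have : ι (p : A) = 0 := by rw [h, map_zero]
      rw [map_natCast] at this
      exact (Nat.cast_ne_zero.2 hp.out.ne_zero) this
    · rw [map_natCast]
      have h1 : ‖(p : ℂ_[p])‖ = (p : ℝ)⁻¹ := by
        have h2 := PadicComplex.norm_extends' p (p : ℚ_[p])
        rw [Padic.norm_p] at h2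
        have h3 : (((p : ℚ_[p]) : ℂ_[p])) = (p : ℂ_[p]) := map_natCast (algebraMap ℚ_[p] ℂ_[p]) p
        rw [← h3]
        exact h2
      rw [h1, zpow_neg, zpow_natCast, inv_pow]
  have ha0 : a ≠ 0 := by
    intro h
    obtain ⟨t, ht⟩ := (hmem _).1 hpm
    rw [h, mul_zero] at ht
    omega
  -- choose the negative generator
  obtain ⟨b, hb, hbneg, hball⟩ : ∃ b : ℤ, b ∈ H ∧ b < 0 ∧ ∀ j ∈ H, ∃ t : ℤ, j = t * b := by
    rcases lt_or_gt_of_ne ha0 with h | h
    · exact ⟨a, (hmem a).2 ⟨1, by ring⟩, h, fun j hj => (hmem j).1 hj⟩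
    · refine ⟨-a, (hmem _).2 ⟨-1, by ring⟩, by omega, fun j hj => ?_⟩
      obtain ⟨t, ht⟩ := (hmem j).1 hj
      exact ⟨-t, by rw [ht]; ring⟩
  obtain ⟨π, hπ, hπ0, hπb⟩ := hb
  have hnorm : 0 < ‖ι π‖ := norm_pos_iff.2 ((map_ne_zero ι).2 hπ0)
  refine ⟨π, hπ, hnorm, ?_, ?_⟩
  · have h1 : ‖ι π‖ ^ e < 1 := by
      rw [hπb]
      exact zpow_lt_one_of_neg₀ hp1 hbneg
    by_contra hc
    have := one_le_pow₀ (not_lt.1 hc) (n := e)
    linarith
  · intro x hx hx0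
    obtain ⟨j, hj⟩ := (hv (ι x) hx ((map_ne_zero ι).2 hx0)).1
    obtain ⟨t, ht⟩ := hball j ⟨x, hx, hx0, hj⟩
    refine ⟨t, ?_⟩
    have h1 : ‖ι x‖ ^ e = (‖ι π‖ ^ t) ^ e := by
      rw [hj, ht, mul_comm, zpow_mul, ← hπb, ← zpow_natCast, ← zpow_natCast, ← zpow_mul, ← zpow_mul, mul_comm]
    exact (pow_left_inj₀ (norm_nonneg _) (zpow_nonneg (norm_nonneg _) _) he.ne').1 h1

/-- the preimage of `E` -/
def locF (ι : Acl k Ω →+* ℂ_[p]) (E : IntermediateField ℚ_[p] ℂ_[p])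
    (hk : ∀ c : k, ι (algebraMap k (Acl k Ω) c) ∈ E) : IntermediateField k (Acl k Ω) where
  carrier := {x | ι x ∈ E}
  mul_mem' := by intro x y hx hy; show ι (x * y) ∈ E; rw [map_mul]; exact mul_mem hx hy
  one_mem' := by show ι 1 ∈ E; rw [map_one]; exact one_mem _
  add_mem' := by intro x y hx hy; show ι (x + y) ∈ E; rw [map_add]; exact add_mem hx hy
  zero_mem' := by show ι 0 ∈ E; rw [map_zero]; exact zero_mem _
  algebraMap_mem' := hk
  inv_mem' := by intro x hx; show ι x⁻¹ ∈ E; rw [map_inv₀]; exact inv_mem hx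

theorem loc_FF [CharZero k] [IsAlgClosed Ω] (ι : Acl k Ω →+* ℂ_[p]) (E : IntermediateField ℚ_[p] ℂ_[p])
    (hk : ∀ c : k, ι (algebraMap k (Acl k Ω) c) ∈ E) (x : Acl k Ω) :
    x ∈ FF {x : Acl k Ω | ι x ∈ E} ↔ ι x ∈ E := by
  constructor
  · intro h
    have h1 : x ∈ IntermediateField.fixedField (locF ι E hk).fixingSubgroup := by
      rw [IntermediateField.mem_fixedField_iff]
      intro g hg
      apply h g
      intro a ha
      exact (IntermediateField.mem_fixingSubgroup_iff (locF ι E hk) g).1 hg a ha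
    have hgal : IsGalois k (Acl k Ω) := IsAlgClosure.isGalois k _
    rw [InfiniteGalois.fixedField_fixingSubgroup] at h1
    exact h1
  · intro h g hg
    exact hg x h

end

theorem st_LOC : ST_LOC := by
  intro k Ω _ _ _ _ _ p hp σ E₀ hE₀ hσ
  have hA : IsAlgClosed (Acl k Ω) := IsAlgClosure.isAlgClosed k
  obtain ⟨ι, hι⟩ : ∃ ι : Acl k Ω →+* ℂ_[p], ∀ c : k, ι (algebraMap k (Acl k Ω) c) = σ c := by
    let _ : Algebra k ℂ_[p] := σ.toAlgebra
    let f : Acl k Ω →ₐ[k] ℂ_[p] := IsAlgClosed.lift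
    exact ⟨f.toRingHom, fun c => f.commutes c⟩
  have hm : 0 < 12 * p := by have := hp.out.pos; omega
  obtain ⟨z, hz⟩ := loc_roots ℂ_[p] (12 * p) hm
  obtain ⟨E, hE, hle, hzE, hQ⟩ := loc_E E₀ hE₀ (12 * p) hm z hz.pow_eq_one
  have hk : ∀ c : k, ι (algebraMap k (Acl k Ω) c) ∈ E := fun c => by rw [hι]; exact hle (hσ c)
  have hroot : ∀ u : Acl k Ω, u ^ (12 * p) = 1 → ι u ∈ E := by
    intro u hu
    have h1 : (ι u) ^ (12 * p) = 1 := by rw [← map_pow, hu, map_one]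
    have : NeZero (12 * p) := ⟨hm.ne'⟩
    obtain ⟨i, -, hi⟩ := hz.eq_pow_of_pow_eq_one h1
    rw [← hi]
    exact pow_mem hzE i
  obtain ⟨π, hπ1, hπ2, hπ3, hπ4⟩ := loc_pi (Acl k Ω) ι E hE
  obtain ⟨e, N, he, hN, hv⟩ := st_EFIN p E hE
  have hc0 : CharZero (Acl k Ω) := charZero_of_injective_algebraMap (algebraMap k (Acl k Ω)).injective
  obtain ⟨ζ, hζ⟩ := loc_roots (Acl k Ω) p hp.out.pos
  obtain ⟨w, hw⟩ := loc_roots (Acl k Ω) 3 (by norm_num)
  obtain ⟨i, hi⟩ := loc_roots (Acl k Ω) 4 (by norm_num)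
  refine ⟨⟨ι, {x | ι x ∈ E}, ?_, E, hE, ?_, π, ?_, hπ2, hπ3, ?_, ?_, ζ, hζ, ?_, ?_, ?_⟩, hι, ?_⟩
  · intro g hg x
    exact loc_iso ι E hE hk g (fun y hy => hg y hy) x
  · intro x hx
    exact (loc_FF ι E hk x).1 hx
  · exact (loc_FF ι E hk π).2 hπ1
  · intro x hx hx0
    exact hπ4 x ((loc_FF ι E hk x).1 hx) hx0
  · refine ⟨N, hN, fun x hx hx1 => ?_⟩
    have h1 := (loc_FF ι E hk x).1 hx
    have h2 : ι x ≠ 0 := by
      intro h
      rw [h, norm_zero] at hx1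
      exact zero_ne_one hx1
    rw [map_sub, map_pow, map_one]
    exact (hv (ι x) h1 h2).2 hx1
  · refine (loc_FF ι E hk ζ).2 (hroot ζ ?_)
    rw [mul_comm, pow_mul, hζ.pow_eq_one, one_pow]
  · refine ⟨i, (loc_FF ι E hk i).2 (hroot i ?_), ?_⟩
    · have : 12 * p = 4 * (3 * p) := by ring
      rw [this, pow_mul, hi.pow_eq_one, one_pow]
    · have h1 : (i ^ 2) ^ 2 = 1 := by rw [← pow_mul]; exact hi.pow_eq_one
      have h2 : i ^ 2 ≠ 1 := fun h => by
        have := hi.dvd_of_pow_eq_one 2 h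
        omega
      rcases sq_eq_one_iff.1 h1 with h | h
      · exact absurd h h2
      · exact h
  · refine ⟨w, (loc_FF ι E hk w).2 (hroot w ?_), hw⟩
    have : 12 * p = 3 * (4 * p) := by ring
    rw [this, pow_mul, hw.pow_eq_one, one_pow]
  · intro x hx
    obtain ⟨Q, hQ0, hQd, hQx⟩ := hQ x hx
    exact st_NRM p E₀ hE₀ (12 * p) Q hQ0 hQd x hQx

end Pool.Agent.Helper14.BSC
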