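import Pool.Agent.Helper50.BSC.PadLib

/-!
# NRM
-/

set_option autoImplicit false

namespace Pool.Agent.Helper14.BSC

open Polynomial

theorem st_NRM : ST_NRM := by
  intro p hp E hE m Q hQ hQm w hw
  have hx : IsAlgebraic E w := ⟨Q, hQ, hw⟩
  have hd : (minpoly E w).natDegree ≤ m := (natDegree_le_of_dvd (minpoly.dvd E w hw) hQ).trans hQm
  have hpos : 0 < (minpoly E w).natDegree := minpoly.natDegree_pos hx.isIntegral
  obtain ⟨t, ht⟩ := Nat.dvd_factorial hpos hd
  refine ⟨((((minpoly E w).coeff 0) ^ t : E) : ℂ_[p]), SetLike.coe_mem _, ?_⟩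
  rw [ht, pow_mul, pl_pow E hE hx]
  push_cast
  rw [norm_pow]

end Pool.Agent.Helper14.BSC
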