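import Pool.Agent.Helper14.BSC.Stmts

/-!
# Norms of algebraic elements of `ℂ_[p]`
-/

set_option autoImplicit false

namespace Pool.Agent.Helper14.BSC

open Polynomial

variable {p : ℕ} [hp : Fact p.Prime]

theorem pl_mem (x : ℂ_[p]) (hx : IsAlgebraic ℚ_[p] x) : ∃ y : PadicAlgCl p, algebraMap (PadicAlgCl p) ℂ_[p] y = x := by
  have h1 : IsAlgebraic (PadicAlgCl p) x := hx.tower_top (PadicAlgCl p)
  have h2 := IsAlgClosed.degree_eq_one_of_irreducible (PadicAlgCl p) (minpoly.irreducible h1.isIntegral)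
  obtain ⟨y, hy⟩ := minpoly.mem_range_of_degree_eq_one (PadicAlgCl p) x h2
  exact ⟨y, hy⟩

theorem pl_norm (x : ℂ_[p]) (hx : IsAlgebraic ℚ_[p] x) :
    ‖x‖ ^ (minpoly ℚ_[p] x).natDegree = ‖(minpoly ℚ_[p] x).coeff 0‖ := by
  obtain ⟨y, rfl⟩ := pl_mem x hx
  have h1 : minpoly ℚ_[p] (algebraMap (PadicAlgCl p) ℂ_[p] y) = minpoly ℚ_[p] y :=
    minpoly.algebraMap_eq (algebraMap (PadicAlgCl p) ℂ_[p]).injective y
  have h2 : ‖algebraMap (PadicAlgCl p) ℂ_[p] y‖ = ‖y‖ := PadicComplex.norm_extends p y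
  have h3 := spectralNorm.spectralNorm_eq_norm_coeff_zero_rpow ℚ_[p] (PadicAlgCl p) y
  rw [PadicAlgCl.spectralNorm_eq] at h3
  have hpos : 0 < (minpoly ℚ_[p] y).natDegree := minpoly.natDegree_pos (Algebra.IsIntegral.isIntegral y)
  rw [h1, h2, h3, ← Real.rpow_natCast, ← Real.rpow_mul (norm_nonneg _)]
  have h4 : 1 / ((minpoly ℚ_[p] y).natDegree : ℝ) * ((minpoly ℚ_[p] y).natDegree : ℝ) = 1 := by
    field_simp
  rw [h4, Real.rpow_one]

theorem pl_norm_eq {x y : ℂ_[p]} (hx : IsAlgebraic ℚ_[p] x) (h : aeval y (minpoly ℚ_[p] x) = 0) : ‖y‖ = ‖x‖ := by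
  have h1 : minpoly ℚ_[p] y = minpoly ℚ_[p] x := minpoly.eq_of_root hx h
  have hy : IsAlgebraic ℚ_[p] y := ⟨_, minpoly.ne_zero hx.isIntegral, h⟩
  have h2 := pl_norm x hx
  have h3 := pl_norm y hy
  rw [h1] at h3
  have hpos : (minpoly ℚ_[p] x).natDegree ≠ 0 := (minpoly.natDegree_pos hx.isIntegral).ne'
  exact (pow_left_inj₀ (norm_nonneg _) (norm_nonneg _) hpos).1 (h3.trans h2.symm)

theorem pl_conj (E : IntermediateField ℚ_[p] ℂ_[p]) {x y : ℂ_[p]} (hx : IsAlgebraic ℚ_[p] x)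
    (h : aeval y (minpoly E x) = 0) : ‖y‖ = ‖x‖ := by
  apply pl_norm_eq hx
  obtain ⟨Q, hQ⟩ := minpoly.dvd_map_of_isScalarTower ℚ_[p] E x
  have h1 : aeval y ((minpoly ℚ_[p] x).map (algebraMap ℚ_[p] E)) = 0 := by
    rw [hQ, map_mul, h, zero_mul]
  rwa [aeval_map_algebraMap] at h1

theorem pl_alg (E : IntermediateField ℚ_[p] ℂ_[p]) (hE : FiniteDimensional ℚ_[p] E) {x : ℂ_[p]}
    (hx : IsAlgebraic E x) : IsAlgebraic ℚ_[p] x := by
  have : Algebra.IsAlgebraic ℚ_[p] E := Algebra.IsAlgebraic.of_finite ℚ_[p] E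
  exact hx.restrictScalars ℚ_[p]

/-- norms of elements over `E` -/
theorem pl_pow (E : IntermediateField ℚ_[p] ℂ_[p]) (hE : FiniteDimensional ℚ_[p] E) {x : ℂ_[p]}
    (hx : IsAlgebraic E x) : ‖x‖ ^ (minpoly E x).natDegree = ‖(((minpoly E x).coeff 0 : E) : ℂ_[p])‖ := by
  have hx2 := pl_alg E hE hx
  have hs : ((minpoly E x).map (algebraMap E ℂ_[p])).Splits := IsAlgClosed.splits _
  have hm : ((minpoly E x).map (algebraMap E ℂ_[p])).Monic := (minpoly.monic hx.isIntegral).map _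
  have h1 := hs.coeff_zero_eq_prod_roots_of_monic hm
  have h2 : (((minpoly E x).coeff 0 : E) : ℂ_[p]) = ((minpoly E x).map (algebraMap E ℂ_[p])).coeff 0 := by
    rw [coeff_map]
    rfl
  rw [h2, h1, norm_mul, norm_pow, norm_neg, norm_one, one_pow, one_mul]
  have h3 : ∀ a ∈ ((minpoly E x).map (algebraMap E ℂ_[p])).roots, ‖a‖ = ‖x‖ := by
    intro a ha
    apply pl_conj E hx2
    have := (mem_roots'.1 ha).2
    rw [IsRoot.def, eval_map_algebraMap] at this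
    exact this
  have h4 : Multiset.card ((minpoly E x).map (algebraMap E ℂ_[p])).roots = (minpoly E x).natDegree := by
    rw [splits_iff_card_roots.1 hs, natDegree_map]
  have h5 : ∀ s : Multiset ℂ_[p], (∀ a ∈ s, ‖a‖ = ‖x‖) → ‖s.prod‖ = ‖x‖ ^ Multiset.card s := by
    intro s
    induction s using Multiset.induction_on with
    | empty => intro _; simp
    | cons a s ih =>
      intro h
      rw [Multiset.prod_cons, norm_mul, h a (Multiset.mem_cons_self a s),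
        ih (fun b hb => h b (Multiset.mem_cons_of_mem hb)), Multiset.card_cons, pow_succ, mul_comm]
  rw [h5 _ h3, h4]

end Pool.Agent.Helper14.BSC
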